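import Pool.Agent.H86.Torus.Approach

/-!
# MP_8d7c8e_an: radial approaches with decreasing radii on the infinite-dimensional torus

There are `f ∈ H^∞(𝕋^∞)` and one radial approach, independent of the boundary point and with radii
decreasing in the coordinate, along which `f` fails to converge to its boundary value at almost
every point.
-/

open MeasureTheory Filter Topology
open scoped ENNReal

namespace Pool.Agent.Results.MP_8d7c8e_an.DecreasingRadii

open Pool.Agent.H86.Torus

/-- There are `f ∈ H^∞(𝕋^∞)` and a radial approach `(r k)`, the same for all points, with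
`r k n → 1` for each `n` and `r k (n+1) ≤ r k n`, such that for almost every `θ` the sequence
`f(r_k e^{iθ})` does not converge to `f(e^{iθ})`. -/
theorem result : ∃ f : TorusInf → ℂ, MemHInf f ∧
    ∃ r : ℕ → ℕ → Set.Ico (0 : ℝ) 1,
      (∀ n, Tendsto (fun k => (r k n : ℝ)) atTop (𝓝 1)) ∧
      (∀ k n, r k (n + 1) ≤ r k n) ∧
      ∀ᵐ θ ∂haarInf, ¬ Tendsto (fun k => poissonExt f (r k) θ) atTop (𝓝 (f θ)) := by
  obtain ⟨f, hf, hf1, hlim⟩ := exists_limit isFactor_FF NN NN_strictMono.monotone
    (fun i j hij => sum_blocks hij)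
  have hNN : Tendsto NN atTop atTop := NN_strictMono.tendsto_atTop
  refine ⟨f, memHInf_limit isFactor_FF hNN hf hf1 hlim, ?_⟩
  obtain ⟨hden⟩ := nonempty_denumerable Idx
  let e : ℕ ≃ Idx := (Denumerable.eqv Idx).symm
  have he : Tendsto e atTop cofinite := by
    rw [← Nat.cofinite_eq_atTop]
    exact e.injective.tendsto_cofinite
  have he' : Tendsto e.symm cofinite atTop := by
    rw [← Nat.cofinite_eq_atTop]
    exact e.symm.injective.tendsto_cofinite
  refine ⟨fun k => RR (e k), fun n => (tendsto_RR n).comp he, ?_, ?_⟩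
  · intro k n
    exact Subtype.mk_le_mk.mpr (rad_anti (ext_lt (e k).2) n)
  · have hall : ∀ᵐ θ ∂haarInf, ∀ k : Idx, ∀ s : Finset ℕ, ‖poissonExt f (RR k) θ‖ ≤
        ∏ n ∈ s, ‖FF n ((RR k n : ℝ) * pt (θ n))‖ :=
      ae_all_iff.mpr fun k => norm_poissonExt_le isFactor_FF hNN hf hlim (RR k)
    filter_upwards [hf1, hall, ae_eventually_HB] with θ h1 h2 h3 hcon
    have hcon' : Tendsto (fun k : Idx => poissonExt f (RR k) θ) cofinite (𝓝 (f θ)) := by
      have := hcon.comp he'
      refine this.congr fun k => ?_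
      simp [Function.comp]
    have hsc : ∀ j : ℕ, ∃ c : Fin (NN (j + 1)) → Fin (ell j),
        ‖poissonExt f (RR ⟨j, c⟩) θ‖ ≤ HB j θ := by
      intro j
      choose c hc hc2 using fun n : ℕ => exists_scale (ell_pos j) (M := MM n) (θ n)
      refine ⟨fun i => ⟨c i, hc i⟩, ?_⟩
      refine (h2 _ (Finset.Ico (NN j) (NN (j + 1)))).trans ?_
      unfold HB
      apply Finset.prod_le_prod (fun _ _ => norm_nonneg _)
      intro n hn
      rw [Finset.mem_Ico] at hn
      have h4 : ext (fun i : Fin (NN (j + 1)) => (⟨c i, hc i⟩ : Fin (ell j))) n = c n := by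
        unfold ext
        rw [dif_pos hn.2]
      have h5 := FF_rad (j := j) (c := ext fun i : Fin (NN (j + 1)) => (⟨c i, hc i⟩ : Fin (ell j)))
        (n := n) (ext_lt _ n) hn.1 hn.2 (θ n)
      have h6 := hc2 n
      rw [h4] at h5
      rw [← h5] at h6
      exact h6
    choose c hc using hsc
    have hinj : Function.Injective fun j : ℕ => (⟨j, c j⟩ : Idx) := fun i j hij =>
      congrArg Sigma.fst hij
    have h4 : Tendsto (fun j : ℕ => poissonExt f (RR ⟨j, c j⟩) θ) atTop (𝓝 (f θ)) := by
      have h5 := hinj.tendsto_cofinite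
      rw [Nat.cofinite_eq_atTop] at h5
      exact hcon'.comp h5
    have h5 : ‖f θ‖ ≤ 1 / 2 := by
      refine le_of_tendsto h4.norm ?_
      filter_upwards [h3] with j hj
      exact (hc j).trans hj.le
    rw [h1] at h5
    norm_num at h5

end Pool.Agent.Results.MP_8d7c8e_an.DecreasingRadii
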